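import Pool.Agent.Helper92.RK.Alg

/-!
# Part TMH: the evaluation of a hypothesis is computed in polynomial time
-/

set_option autoImplicit false

namespace Pool.Agent.Helper53.RK.TMH

open Pool.Agent.NPC
open Pool.Agent.Helper92.RK

section

variable {α : Type} [TEnc α]

theorem poly_hv {H : α → Hy} {x : α → List Bool} (hH : NPC.Poly H) (hx : NPC.Poly x) :
    NPC.Poly (fun a => hv (H a) (x a)) := by
  unfold hv
  refine NPC.Poly.any (p := fun a (V : List ℕ) => (H a).2.all fun z =>
    !(V.all fun i => decide (z.getD i false = (x a).getD i false))) (NPC.Poly.fst hH) ?_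
  refine NPC.Poly.all (p := fun (a : α × List ℕ) (z : List Bool) =>
    !(a.2.all fun i => decide (z.getD i false = (x a.1).getD i false)))
    (NPC.Poly.snd (hH.comp (NPC.Poly.fst NPC.Poly.id))) ?_
  refine NPC.Poly.not (NPC.Poly.all (p := fun (a : (α × List ℕ) × List Bool) (i : ℕ) =>
    decide (a.2.getD i false = (x a.1.1).getD i false))
    (NPC.Poly.snd (NPC.Poly.fst NPC.Poly.id)) ?_)
  refine NPC.Poly.decide_eq ?_ ?_
  · exact NPC.Poly.getD (d := fun _ => false) (NPC.Poly.snd (NPC.Poly.fst NPC.Poly.id))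
      (NPC.Poly.snd NPC.Poly.id) (NPC.Poly.const false)
  · exact NPC.Poly.getD (d := fun _ => false)
      (hx.comp (NPC.Poly.fst (NPC.Poly.fst (NPC.Poly.fst NPC.Poly.id))))
      (NPC.Poly.snd NPC.Poly.id) (NPC.Poly.const false)

end

theorem main : S_TMH := poly_hv (NPC.Poly.fst NPC.Poly.id) (NPC.Poly.snd NPC.Poly.id)

end Pool.Agent.Helper53.RK.TMH
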